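import Pool.Agent.H38.B2.AA

/-!
MP_b2fb47_al, module C: the algebra `AA` has dimension 130, is connected and is not semisimple
(and neither is its opposite).
-/

set_option linter.unusedSectionVars false

namespace Pool.Agent.H38.B2

universe u
variable {K : Type u} [Field K]

theorem card_Ix : Fintype.card Ix = 32 := rfl

theorem A0_finrank : Module.finrank K (A0 K) = 32 := by
  have : Module.finrank K (A0 K) = Module.finrank K (Ix → K) := rfl
  rw [this, Module.finrank_fintype_fun_eq_card, card_Ix]

theorem AA_finrank : Module.finrank K (AA K) = 130 := by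
  have : Module.finrank K (AA K) = Module.finrank K (A0 K × A0 K × A0 K × A0 K × K × K) := rfl
  rw [this, Module.finrank_prod, Module.finrank_prod, Module.finrank_prod, Module.finrank_prod,
    Module.finrank_prod, A0_finrank, Module.finrank_self]

/-- the centre of `A0` is small -/
theorem A0_scalar (x : A0 K) (h0 : x * A0.e0 = A0.e0 * x) (h1 : x * A0.e1 = A0.e1 * x)
    (h2 : x * A0.e2 = A0.e2 * x) (h3 : x * A0.e3 = A0.e3 * x)
    (hx : x * A0.xi = A0.xi * x) : x = x .d0 • (1 : A0 K) := by
  have H0 : ∀ i : Ix, (x * A0.e0 : A0 K) i = (A0.e0 * x : A0 K) i := fun i => by rw [h0]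
  have H1 : ∀ i : Ix, (x * A0.e1 : A0 K) i = (A0.e1 * x : A0 K) i := fun i => by rw [h1]
  have H2 : ∀ i : Ix, (x * A0.e2 : A0 K) i = (A0.e2 * x : A0 K) i := fun i => by rw [h2]
  have H3 : ∀ i : Ix, (x * A0.e3 : A0 K) i = (A0.e3 * x : A0 K) i := fun i => by rw [h3]
  have HX : ∀ i : Ix, (x * A0.xi : A0 K) i = (A0.xi * x : A0 K) i := fun i => by rw [hx]
  ext i
  have a1 : x .d1 = x .d0 := by simpa using HX .p01s
  have a2 : x .d2 = x .d1 := by simpa using HX .p12s
  have a3 : x .d3 = x .d2 := by simpa using HX .p23s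
  cases i
  case d0 => simp
  case d1 => simp [a1]
  case d2 => simp [a1, a2]
  case d3 => simp [a1, a2, a3]
  case p01u1 => simpa using H0 .p01u1
  case p01u2 => simpa using H0 .p01u2
  case p01u3 => simpa using H0 .p01u3
  case p01s => simpa using H0 .p01s
  case p12u1 => simpa using H1 .p12u1
  case p12u2 => simpa using H1 .p12u2
  case p12u3 => simpa using H1 .p12u3
  case p12s => simpa using H1 .p12s
  case p23u1 => simpa using H2 .p23u1
  case p23u2 => simpa using H2 .p23u2
  case p23u3 => simpa using H2 .p23u3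
  case p23s => simpa using H2 .p23s
  case q02m1 => simpa using H0 .q02m1
  case q02m2 => simpa using H0 .q02m2
  case q02m3 => simpa using H0 .q02m3
  case q02w1 => simpa using H0 .q02w1
  case q02w2 => simpa using H0 .q02w2
  case q02w3 => simpa using H0 .q02w3
  case q13m1 => simpa using H1 .q13m1
  case q13m2 => simpa using H1 .q13m2
  case q13m3 => simpa using H1 .q13m3
  case q13w1 => simpa using H1 .q13w1
  case q13w2 => simpa using H1 .q13w2
  case q13w3 => simpa using H1 .q13w3
  case r03c => simpa using H0 .r03c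
  case r03n1 => simpa using H0 .r03n1
  case r03n2 => simpa using H0 .r03n2
  case r03n3 => simpa using H0 .r03n3

/-- connected: no nontrivial central idempotent -/
theorem AA_connected (e : AA K) (hc : ∀ x : AA K, e * x = x * e) (he : e * e = e) :
    e = 0 ∨ e = 1 := by
  -- off-diagonal parts vanish
  have hA := hc (AA.mk 1 0 0 0 0 0)
  have h12 : e.a12 = 0 := by
    have := congrArg AA.a12 hA
    simp at this
    exact this.symm
  have h21 : e.a21 = 0 := by
    have := congrArg AA.a21 hA
    simpa using this
  have hsi : e.si = 0 := by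
    have := congrArg AA.si hA
    simp at this
    exact this.symm
  have hro : e.ro = 0 := by
    have := congrArg AA.ro (hc (AA.mk A0.e1 0 0 0 0 0))
    simpa [hsi, h21] using this
  -- the diagonal parts are scalars
  have k11 : ∀ y : A0 K, e.a11 * y = y * e.a11 := by
    intro y
    have := congrArg AA.a11 (hc (AA.mk y 0 0 0 0 0))
    simpa using this
  have k22 : ∀ y : A0 K, e.a22 * y = y * e.a22 := by
    intro y
    have := congrArg AA.a22 (hc (AA.mk 0 0 0 y 0 0))
    simpa using this
  have s11 := A0_scalar e.a11 (k11 _) (k11 _) (k11 _) (k11 _) (k11 _)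
  have s22 := A0_scalar e.a22 (k22 _) (k22 _) (k22 _) (k22 _) (k22 _)
  -- they coincide
  have hz : e.a11 = e.a22 := by
    have := congrArg AA.a12 (hc (AA.mk 0 1 0 0 0 0))
    simpa [hsi] using this
  set c : K := e.a11 .d0 with hcdef
  have hcc : c * c = c := by
    have h := congrArg AA.a11 he
    rw [AA.mul_a11] at h
    have h' : (e.a11 * e.a11) .d0 = e.a11 .d0 := by rw [h]
    simpa using h'
  have hcase : c = 0 ∨ c = 1 := by
    have : c * (c - 1) = 0 := by
      rw [mul_sub, hcc, mul_one, sub_self]
    rcases mul_eq_zero.mp this with h | h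
    · exact Or.inl h
    · exact Or.inr (sub_eq_zero.mp h)
  rcases hcase with h | h
  · left
    rw [h, zero_smul] at s11
    ext1
    · simpa using s11
    · simpa using h12
    · simpa using h21
    · rw [← hz]; simpa using s11
    · simpa using hro
    · simpa using hsi
  · right
    rw [h, one_smul] at s11
    ext1
    · simpa using s11
    · simpa using h12
    · simpa using h21
    · rw [← hz]; simpa using s11
    · simpa using hro
    · simpa using hsi

/-- a semisimple ring has no nonzero `x` with `x R x = 0` -/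
theorem not_semisimple_of {R : Type*} [Ring R] (x : R) (hx : x ≠ 0) (h : ∀ y, x * y * x = 0) :
    ¬ IsSemisimpleRing R := by
  intro hs
  obtain ⟨J, hJ⟩ := exists_isCompl (Submodule.span R {x})
  have h1 : (1 : R) ∈ Submodule.span R {x} ⊔ J := by
    rw [hJ.sup_eq_top]
    exact Submodule.mem_top
  obtain ⟨a, ha, b, hb, hab⟩ := Submodule.mem_sup.mp h1
  obtain ⟨r, rfl⟩ := Submodule.mem_span_singleton.mp ha
  have h2 : x = x * (r • x) + x * b := by
    rw [← mul_add, hab, mul_one]
  rw [smul_eq_mul, ← mul_assoc, h, zero_add] at h2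
  have h3 : x ∈ J := by
    rw [h2]
    exact J.smul_mem x hb
  have h4 : x ∈ Submodule.span R {x} := Submodule.mem_span_singleton_self x
  exact hx ((Submodule.disjoint_def.mp hJ.disjoint) x h4 h3)

theorem nilp_mul (y : AA K) : AA.mk 0 A0.vol 0 0 0 0 * y * AA.mk 0 A0.vol 0 0 0 0 = 0 := by
  ext1 <;> simp

theorem nilp_ne : AA.mk (0 : A0 K) A0.vol 0 0 0 0 ≠ 0 := by
  intro h
  have h1 := congrArg (fun X : AA K => X.a12 .r03c) h
  simp at h1

theorem AA_not_semisimple : ¬ IsSemisimpleRing (AA K) :=
  not_semisimple_of _ nilp_ne nilp_mul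

theorem AA_op_not_semisimple : ¬ IsSemisimpleRing (AA K)ᵐᵒᵖ := by
  apply not_semisimple_of (MulOpposite.op (AA.mk (0 : A0 K) A0.vol 0 0 0 0))
  · intro h
    exact nilp_ne (MulOpposite.op_injective h)
  · intro y
    induction y using MulOpposite.rec' with
    | _ y => rw [← MulOpposite.op_mul, ← MulOpposite.op_mul, ← mul_assoc, nilp_mul, MulOpposite.op_zero]

end Pool.Agent.H38.B2
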