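import Mathlib

set_option autoImplicit false

namespace Pool.Agent.H30.LW

open Real Finset

/-- Taylor expansion of `log (1 - x)` with remainder. -/
lemma log_taylor (n : ℕ) (x : ℝ) (hx : |x| ≤ 1 / 2) :
    |(∑ i ∈ range n, x ^ (i + 1) / (i + 1)) + Real.log (1 - x)| ≤ 2 * |x| ^ (n + 1) := by
  have h1 : |x| < 1 := by linarith
  refine (Real.abs_log_sub_add_sum_range_le h1 n).trans ?_
  rw [div_le_iff₀ (by linarith)]
  have : 0 ≤ |x| ^ (n + 1) := by positivity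
  nlinarith

/-- The Taylor polynomial. -/
noncomputable def S (n : ℕ) (x : ℝ) : ℝ := ∑ i ∈ range n, x ^ (i + 1) / (i + 1)

/-- The logarithmic form. -/
noncomputable def Lam (q : ℝ) : ℝ :=
  (308897820 * q + 308224840) * Real.log (1 - (-(1 / q)))
  + (-(308897820 * q) + 308224840) * Real.log (1 - 1 / q)
  + (-(617795640 * q) - 409003595) * Real.log (1 - (-(1 / q / 2)))
  + (617795640 * q - 409003595) * Real.log (1 - 1 / q / 2)
  + (-70467584) * Real.log (1 - 5 / 8 * (1 / q) ^ 2)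
  + 144375000 * Real.log (1 - 3 / 20 * (1 / q) ^ 2)
  + (-31788045) * Real.log (1 - 11 / 12 * (1 / q) ^ 2)

lemma poly_id (q u : ℝ) (h : q * u = 1) :
    (308897820 * q + 308224840) * S 18 (-u)
    + (-(308897820 * q) + 308224840) * S 18 u
    + (-(617795640 * q) - 409003595) * S 18 (-(u / 2))
    + (617795640 * q - 409003595) * S 18 (u / 2)
    + (-70467584) * S 9 (5 / 8 * u ^ 2)
    + 144375000 * S 9 (3 / 20 * u ^ 2)
    + (-31788045) * S 9 (11 / 12 * u ^ 2)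
    = (39470277 / 40960) * u ^ 16 + (239756209023023 / 7372800) * u ^ 18 := by
  have e1 : ∀ v : ℝ, S 18 v = v * (1 + v / 2 + v ^ 2 / 3 + v ^ 3 / 4 + v ^ 4 / 5 + v ^ 5 / 6 + v ^ 6 / 7
      + v ^ 7 / 8 + v ^ 8 / 9 + v ^ 9 / 10 + v ^ 10 / 11 + v ^ 11 / 12 + v ^ 12 / 13 + v ^ 13 / 14
      + v ^ 14 / 15 + v ^ 15 / 16 + v ^ 16 / 17 + v ^ 17 / 18) := by
    intro v
    simp only [S, sum_range_succ, range_zero, sum_empty]
    norm_num
    ring
  have e2 : ∀ v : ℝ, S 9 v = v + v ^ 2 / 2 + v ^ 3 / 3 + v ^ 4 / 4 + v ^ 5 / 5 + v ^ 6 / 6 + v ^ 7 / 7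
      + v ^ 8 / 8 + v ^ 9 / 9 := by
    intro v
    simp only [S, sum_range_succ, range_zero, sum_empty]
    norm_num
  have hq : ∀ v : ℝ, q * (u * v) = v := by intro v; rw [← mul_assoc, h, one_mul]
  have k1 : q * S 18 u = (1 + u / 2 + u ^ 2 / 3 + u ^ 3 / 4 + u ^ 4 / 5 + u ^ 5 / 6 + u ^ 6 / 7
      + u ^ 7 / 8 + u ^ 8 / 9 + u ^ 9 / 10 + u ^ 10 / 11 + u ^ 11 / 12 + u ^ 12 / 13 + u ^ 13 / 14
      + u ^ 14 / 15 + u ^ 15 / 16 + u ^ 16 / 17 + u ^ 17 / 18) := by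
    rw [e1, hq]
  have k2 : q * S 18 (-u) = -(1 + (-u) / 2 + (-u) ^ 2 / 3 + (-u) ^ 3 / 4 + (-u) ^ 4 / 5 + (-u) ^ 5 / 6
      + (-u) ^ 6 / 7 + (-u) ^ 7 / 8 + (-u) ^ 8 / 9 + (-u) ^ 9 / 10 + (-u) ^ 10 / 11 + (-u) ^ 11 / 12
      + (-u) ^ 12 / 13 + (-u) ^ 13 / 14 + (-u) ^ 14 / 15 + (-u) ^ 15 / 16 + (-u) ^ 16 / 17
      + (-u) ^ 17 / 18) := by
    rw [e1, neg_mul u, mul_neg, hq]
  have k3 : q * S 18 (u / 2) = (1 / 2) * (1 + (u / 2) / 2 + (u / 2) ^ 2 / 3 + (u / 2) ^ 3 / 4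
      + (u / 2) ^ 4 / 5 + (u / 2) ^ 5 / 6
      + (u / 2) ^ 6 / 7 + (u / 2) ^ 7 / 8 + (u / 2) ^ 8 / 9 + (u / 2) ^ 9 / 10 + (u / 2) ^ 10 / 11
      + (u / 2) ^ 11 / 12
      + (u / 2) ^ 12 / 13 + (u / 2) ^ 13 / 14 + (u / 2) ^ 14 / 15 + (u / 2) ^ 15 / 16
      + (u / 2) ^ 16 / 17 + (u / 2) ^ 17 / 18) := by
    rw [e1, div_eq_mul_inv u 2, mul_assoc u, hq]; norm_num
  have k4 : q * S 18 (-(u / 2)) = -((1 / 2) * (1 + (-(u / 2)) / 2 + (-(u / 2)) ^ 2 / 3 + (-(u / 2)) ^ 3 / 4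
      + (-(u / 2)) ^ 4 / 5 + (-(u / 2)) ^ 5 / 6
      + (-(u / 2)) ^ 6 / 7 + (-(u / 2)) ^ 7 / 8 + (-(u / 2)) ^ 8 / 9 + (-(u / 2)) ^ 9 / 10
      + (-(u / 2)) ^ 10 / 11 + (-(u / 2)) ^ 11 / 12
      + (-(u / 2)) ^ 12 / 13 + (-(u / 2)) ^ 13 / 14 + (-(u / 2)) ^ 14 / 15 + (-(u / 2)) ^ 15 / 16
      + (-(u / 2)) ^ 16 / 17 + (-(u / 2)) ^ 17 / 18)) := by
    rw [e1, neg_mul (u / 2), mul_neg, div_eq_mul_inv u 2, mul_assoc u, hq]; norm_num
  have step : (308897820 * q + 308224840) * S 18 (-u)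
    + (-(308897820 * q) + 308224840) * S 18 u
    + (-(617795640 * q) - 409003595) * S 18 (-(u / 2))
    + (617795640 * q - 409003595) * S 18 (u / 2)
    = 308897820 * (q * S 18 (-u)) + 308224840 * S 18 (-u)
      - 308897820 * (q * S 18 u) + 308224840 * S 18 u
      - 617795640 * (q * S 18 (-(u / 2))) - 409003595 * S 18 (-(u / 2))
      + 617795640 * (q * S 18 (u / 2)) - 409003595 * S 18 (u / 2) := by ring
  rw [step, k1, k2, k3, k4, e1, e1, e1, e1, e2, e2, e2]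
  ring

/-- Main estimate: the form is `-(39470277/40960) q^(-16)` up to `O(q^(-18))`. -/
lemma Lam_est (q : ℝ) (hq : 2 ≤ q) :
    |Lam q + (39470277 / 40960) * (1 / q) ^ 16| ≤ 10 ^ 10 * (1 / q) ^ 18 := by
  set u : ℝ := 1 / q with hu
  have hq0 : 0 < q := by linarith
  have hqu : q * u = 1 := by rw [hu]; field_simp
  have hu0 : 0 < u := by rw [hu]; positivity
  have hu1 : u ≤ 1 / 2 := by
    rw [hu]; exact one_div_le_one_div_of_le (by norm_num) hq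
  have hu2 : u ^ 2 ≤ 1 / 4 := by nlinarith
  have a1 : |(-u)| ≤ 1 / 2 := by rw [abs_neg, abs_of_pos hu0]; exact hu1
  have a2 : |u| ≤ 1 / 2 := by rw [abs_of_pos hu0]; exact hu1
  have a3 : |(-(u / 2))| ≤ 1 / 2 := by rw [abs_neg, abs_of_pos (by positivity)]; linarith
  have a4 : |u / 2| ≤ 1 / 2 := by rw [abs_of_pos (by positivity)]; linarith
  have a5 : |5 / 8 * u ^ 2| ≤ 1 / 2 := by rw [abs_of_pos (by positivity)]; linarith
  have a6 : |3 / 20 * u ^ 2| ≤ 1 / 2 := by rw [abs_of_pos (by positivity)]; linarith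
  have a7 : |11 / 12 * u ^ 2| ≤ 1 / 2 := by rw [abs_of_pos (by positivity)]; linarith
  have r1 := log_taylor 18 _ a1
  have r2 := log_taylor 18 _ a2
  have r3 := log_taylor 18 _ a3
  have r4 := log_taylor 18 _ a4
  have r5 := log_taylor 9 _ a5
  have r6 := log_taylor 9 _ a6
  have r7 := log_taylor 9 _ a7
  have hS : ∀ n x, (∑ i ∈ range n, x ^ (i + 1) / ((i : ℝ) + 1)) = S n x := fun n x => rfl
  rw [hS] at r1 r2 r3 r4 r5 r6 r7
  have id := poly_id q u hqu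
  have u18 : 0 < u ^ 18 := by positivity
  have u19 : u ^ 19 = u * u ^ 18 := by ring
  have qu19 : q * u ^ 19 = u ^ 18 := by rw [u19, ← mul_assoc, hqu, one_mul]
  have t1 : |(-u)| ^ (18 + 1) = u ^ 19 := by rw [abs_neg, abs_of_pos hu0]
  have t2 : |u| ^ (18 + 1) = u ^ 19 := by rw [abs_of_pos hu0]
  have t3 : |(-(u / 2))| ^ (18 + 1) ≤ u ^ 19 := by
    rw [abs_neg, abs_of_pos (by positivity)]
    exact pow_le_pow_left₀ (by positivity) (by linarith) _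
  have t4 : |u / 2| ^ (18 + 1) ≤ u ^ 19 := by
    rw [abs_of_pos (by positivity)]
    exact pow_le_pow_left₀ (by positivity) (by linarith) _
  have u20 : (u ^ 2) ^ (9 + 1) ≤ u ^ 18 := by
    have : (u ^ 2) ^ (9 + 1) = u ^ 2 * u ^ 18 := by ring
    rw [this]; nlinarith [u18]
  have t5 : |5 / 8 * u ^ 2| ^ (9 + 1) ≤ u ^ 18 := by
    rw [abs_of_pos (by positivity)]
    exact (pow_le_pow_left₀ (by positivity) (by linarith [sq_nonneg u]) _).trans u20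
  have t6 : |3 / 20 * u ^ 2| ^ (9 + 1) ≤ u ^ 18 := by
    rw [abs_of_pos (by positivity)]
    exact (pow_le_pow_left₀ (by positivity) (by linarith [sq_nonneg u]) _).trans u20
  have t7 : |11 / 12 * u ^ 2| ^ (9 + 1) ≤ u ^ 18 := by
    rw [abs_of_pos (by positivity)]
    exact (pow_le_pow_left₀ (by positivity) (by linarith [sq_nonneg u]) _).trans u20
  have u19le : u ^ 19 ≤ u ^ 18 := by rw [u19]; nlinarith
  have key : ∀ (c d r e : ℝ), |r| ≤ 2 * e → e ≤ u ^ 19 → |(c * q + d) * r| ≤ (2 * |c| + 2 * |d|) * u ^ 18 := by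
    intro c d r e hr he
    rw [abs_mul]
    have h1 : |c * q + d| ≤ |c| * q + |d| := by
      refine (abs_add_le _ _).trans ?_
      rw [abs_mul, abs_of_pos hq0]
    have h2 : |r| ≤ 2 * u ^ 19 := by linarith
    have h3 : (|c| * q + |d|) * (2 * u ^ 19) = 2 * |c| * u ^ 18 + 2 * |d| * u ^ 19 := by
      rw [← qu19]; ring
    calc |c * q + d| * |r| ≤ (|c| * q + |d|) * (2 * u ^ 19) := by
          apply mul_le_mul h1 h2 (abs_nonneg _) (by positivity)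
      _ = 2 * |c| * u ^ 18 + 2 * |d| * u ^ 19 := h3
      _ ≤ 2 * |c| * u ^ 18 + 2 * |d| * u ^ 18 := by
          have : 0 ≤ 2 * |d| := by positivity
          nlinarith
      _ = (2 * |c| + 2 * |d|) * u ^ 18 := by ring
  have key2 : ∀ (d r e : ℝ), |r| ≤ 2 * e → e ≤ u ^ 18 → |d * r| ≤ (2 * |d|) * u ^ 18 := by
    intro d r e hr he
    rw [abs_mul]
    have : 0 ≤ |d| := abs_nonneg d
    nlinarith
  have m1 := key 308897820 308224840 _ _ r1 t1.le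
  have m2 := key (-308897820) 308224840 _ _ r2 t2.le
  have m3 := key (-617795640) (-409003595) _ _ r3 t3
  have m4 := key 617795640 (-409003595) _ _ r4 t4
  have m5 := key2 (-70467584) _ _ r5 t5
  have m6 := key2 144375000 _ _ r6 t6
  have m7 := key2 (-31788045) _ _ r7 t7
  have hdef : Lam q + (39470277 / 40960) * u ^ 16
      = (308897820 * q + 308224840) * (S 18 (-u) + Real.log (1 - -u))
        + (-308897820 * q + 308224840) * (S 18 u + Real.log (1 - u))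
        + (-617795640 * q + -409003595) * (S 18 (-(u / 2)) + Real.log (1 - -(u / 2)))
        + (617795640 * q + -409003595) * (S 18 (u / 2) + Real.log (1 - u / 2))
        + (-70467584) * (S 9 (5 / 8 * u ^ 2) + Real.log (1 - 5 / 8 * u ^ 2))
        + 144375000 * (S 9 (3 / 20 * u ^ 2) + Real.log (1 - 3 / 20 * u ^ 2))
        + (-31788045) * (S 9 (11 / 12 * u ^ 2) + Real.log (1 - 11 / 12 * u ^ 2))
        - (239756209023023 / 7372800) * u ^ 18 := by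
    rw [Lam, ← hu]
    linear_combination -id
  rw [hdef]
  generalize (308897820 * q + 308224840) * (S 18 (-u) + Real.log (1 - -u)) = T1 at m1 ⊢
  generalize (-308897820 * q + 308224840) * (S 18 u + Real.log (1 - u)) = T2 at m2 ⊢
  generalize (-617795640 * q + -409003595) * (S 18 (-(u / 2)) + Real.log (1 - -(u / 2))) = T3 at m3 ⊢
  generalize (617795640 * q + -409003595) * (S 18 (u / 2) + Real.log (1 - u / 2)) = T4 at m4 ⊢
  generalize (-70467584) * (S 9 (5 / 8 * u ^ 2) + Real.log (1 - 5 / 8 * u ^ 2)) = T5 at m5 ⊢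
  generalize 144375000 * (S 9 (3 / 20 * u ^ 2) + Real.log (1 - 3 / 20 * u ^ 2)) = T6 at m6 ⊢
  generalize (-31788045) * (S 9 (11 / 12 * u ^ 2) + Real.log (1 - 11 / 12 * u ^ 2)) = T7 at m7 ⊢
  have c1 : |(308897820 : ℝ)| = 308897820 := abs_of_pos (by norm_num)
  have c2 : |(308224840 : ℝ)| = 308224840 := abs_of_pos (by norm_num)
  have c3 : |(617795640 : ℝ)| = 617795640 := abs_of_pos (by norm_num)
  have c4 : |(409003595 : ℝ)| = 409003595 := abs_of_pos (by norm_num)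
  have c5 : |(70467584 : ℝ)| = 70467584 := abs_of_pos (by norm_num)
  have c6 : |(144375000 : ℝ)| = 144375000 := abs_of_pos (by norm_num)
  have c7 : |(31788045 : ℝ)| = 31788045 := abs_of_pos (by norm_num)
  rw [abs_neg, c1, c2] at m2
  rw [c1, c2] at m1
  rw [abs_neg, abs_neg, c3, c4] at m3
  rw [abs_neg, c3, c4] at m4
  rw [abs_neg, c5] at m5
  rw [c6] at m6
  rw [abs_neg, c7] at m7
  rw [abs_le] at m1 m2 m3 m4 m5 m6 m7 ⊢
  obtain ⟨p1, p1'⟩ := m1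
  obtain ⟨p2, p2'⟩ := m2
  obtain ⟨p3, p3'⟩ := m3
  obtain ⟨p4, p4'⟩ := m4
  obtain ⟨p5, p5'⟩ := m5
  obtain ⟨p6, p6'⟩ := m6
  obtain ⟨p7, p7'⟩ := m7
  clear r1 r2 r3 r4 r5 r6 r7 id hdef key key2 t1 t2 t3 t4 t5 t6 t7 a1 a2 a3 a4 a5 a6 a7 hS
  constructor <;> linarith

end Pool.Agent.H30.LW
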