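import Mathlib
import Pool.Agent.H30.LW

set_option autoImplicit false

namespace Pool.Agent.H30.LW

open Finset

/-- a vector of eight entries -/
def vec8 {α : Type} (x0 x1 x2 x3 x4 x5 x6 x7 : α) : Fin 8 → α := ![x0, x1, x2, x3, x4, x5, x6, x7]

section
variable {α : Type} (x0 x1 x2 x3 x4 x5 x6 x7 : α)
lemma vec8_0 : vec8 x0 x1 x2 x3 x4 x5 x6 x7 0 = x0 := rfl
lemma vec8_1 : vec8 x0 x1 x2 x3 x4 x5 x6 x7 1 = x1 := rfl
lemma vec8_2 : vec8 x0 x1 x2 x3 x4 x5 x6 x7 2 = x2 := rfl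
lemma vec8_3 : vec8 x0 x1 x2 x3 x4 x5 x6 x7 3 = x3 := rfl
lemma vec8_4 : vec8 x0 x1 x2 x3 x4 x5 x6 x7 4 = x4 := rfl
lemma vec8_5 : vec8 x0 x1 x2 x3 x4 x5 x6 x7 5 = x5 := rfl
lemma vec8_6 : vec8 x0 x1 x2 x3 x4 x5 x6 x7 6 = x6 := rfl
lemma vec8_7 : vec8 x0 x1 x2 x3 x4 x5 x6 x7 7 = x7 := rfl
end

lemma forall8 {p : Fin 8 → Prop} (h0 : p 0) (h1 : p 1) (h2 : p 2) (h3 : p 3) (h4 : p 4) (h5 : p 5)
    (h6 : p 6) (h7 : p 7) : ∀ i, p i := by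
  intro i
  fin_cases i
  exacts [h0, h1, h2, h3, h4, h5, h6, h7]

/-- The eight bases (with `q = m + 1`): `60(q+1)`, `60(q-1)`, `60q+30`, `60q-30`, `3600q^2-2250`,
`3600q^2-540`, `3600q^2-3300`, `60q`. -/
def aa (m : ℕ) : Fin 8 → ℕ :=
  vec8 (60 * (m + 2)) (60 * m) (30 * (2 * m + 3)) (30 * (2 * m + 1)) (3600 * m ^ 2 + 7200 * m + 1350)
    (3600 * m ^ 2 + 7200 * m + 3060) (3600 * m ^ 2 + 7200 * m + 300) (60 * (m + 1))

/-- The eight exponents. -/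
def bb (m : ℕ) : Fin 8 → ℤ :=
  vec8 (308897820 * ((m : ℤ) + 1) + 308224840) (-(308897820 * ((m : ℤ) + 1)) + 308224840)
    (-(617795640 * ((m : ℤ) + 1)) - 409003595) (617795640 * ((m : ℤ) + 1) - 409003595) (-70467584)
    144375000 (-31788045) 117318768

lemma aa0 (m : ℕ) : aa m 0 = 60 * (m + 2) := vec8_0 _ _ _ _ _ _ _ _
lemma aa1 (m : ℕ) : aa m 1 = 60 * m := vec8_1 _ _ _ _ _ _ _ _
lemma aa2 (m : ℕ) : aa m 2 = 30 * (2 * m + 3) := vec8_2 _ _ _ _ _ _ _ _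
lemma aa3 (m : ℕ) : aa m 3 = 30 * (2 * m + 1) := vec8_3 _ _ _ _ _ _ _ _
lemma aa4 (m : ℕ) : aa m 4 = 3600 * m ^ 2 + 7200 * m + 1350 := vec8_4 _ _ _ _ _ _ _ _
lemma aa5 (m : ℕ) : aa m 5 = 3600 * m ^ 2 + 7200 * m + 3060 := vec8_5 _ _ _ _ _ _ _ _
lemma aa6 (m : ℕ) : aa m 6 = 3600 * m ^ 2 + 7200 * m + 300 := vec8_6 _ _ _ _ _ _ _ _
lemma aa7 (m : ℕ) : aa m 7 = 60 * (m + 1) := vec8_7 _ _ _ _ _ _ _ _
lemma bb0 (m : ℕ) : bb m 0 = 308897820 * ((m : ℤ) + 1) + 308224840 := vec8_0 _ _ _ _ _ _ _ _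
lemma bb1 (m : ℕ) : bb m 1 = -(308897820 * ((m : ℤ) + 1)) + 308224840 := vec8_1 _ _ _ _ _ _ _ _
lemma bb2 (m : ℕ) : bb m 2 = -(617795640 * ((m : ℤ) + 1)) - 409003595 := vec8_2 _ _ _ _ _ _ _ _
lemma bb3 (m : ℕ) : bb m 3 = 617795640 * ((m : ℤ) + 1) - 409003595 := vec8_3 _ _ _ _ _ _ _ _
lemma bb4 (m : ℕ) : bb m 4 = -70467584 := vec8_4 _ _ _ _ _ _ _ _
lemma bb5 (m : ℕ) : bb m 5 = 144375000 := vec8_5 _ _ _ _ _ _ _ _
lemma bb6 (m : ℕ) : bb m 6 = -31788045 := vec8_6 _ _ _ _ _ _ _ _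
lemma bb7 (m : ℕ) : bb m 7 = 117318768 := vec8_7 _ _ _ _ _ _ _ _

lemma bb_ne (m : ℕ) : ∀ i : Fin 8, bb m i ≠ 0 := by
  have hm : (0 : ℤ) ≤ m := Int.natCast_nonneg m
  apply forall8
  · rw [bb0]; omega
  · rw [bb1]; omega
  · rw [bb2]; omega
  · rw [bb3]; omega
  · rw [bb4]; norm_num
  · rw [bb5]; norm_num
  · rw [bb6]; norm_num
  · rw [bb7]; norm_num

lemma aa_pos (m : ℕ) (hm : 1 ≤ m) : ∀ i : Fin 8, 0 < aa m i := by
  apply forall8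
  · rw [aa0]; positivity
  · rw [aa1]; positivity
  · rw [aa2]; positivity
  · rw [aa3]; positivity
  · rw [aa4]; positivity
  · rw [aa5]; positivity
  · rw [aa6]; positivity
  · rw [aa7]; positivity

section
variable (m : ℕ) (q : ℝ) (hmq : (m : ℝ) = q - 1)
include hmq
lemma ra0 : ((aa m 0 : ℕ) : ℝ) = 60 * (q + 1) := by rw [aa0]; push_cast; rw [hmq]; ring
lemma ra1 : ((aa m 1 : ℕ) : ℝ) = 60 * (q - 1) := by rw [aa1]; push_cast; rw [hmq]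
lemma ra2 : ((aa m 2 : ℕ) : ℝ) = 30 * (2 * q + 1) := by rw [aa2]; push_cast; rw [hmq]; ring
lemma ra3 : ((aa m 3 : ℕ) : ℝ) = 30 * (2 * q - 1) := by rw [aa3]; push_cast; rw [hmq]; ring
lemma ra4 : ((aa m 4 : ℕ) : ℝ) = 3600 * q ^ 2 - 2250 := by rw [aa4]; push_cast; rw [hmq]; ring
lemma ra5 : ((aa m 5 : ℕ) : ℝ) = 3600 * q ^ 2 - 540 := by rw [aa5]; push_cast; rw [hmq]; ring
lemma ra6 : ((aa m 6 : ℕ) : ℝ) = 3600 * q ^ 2 - 3300 := by rw [aa6]; push_cast; rw [hmq]; ring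
lemma ra7 : ((aa m 7 : ℕ) : ℝ) = 60 * q := by rw [aa7]; push_cast; rw [hmq]; ring
lemma rb0 : ((bb m 0 : ℤ) : ℝ) = 308897820 * q + 308224840 := by rw [bb0]; push_cast; rw [hmq]; ring
lemma rb1 : ((bb m 1 : ℤ) : ℝ) = -(308897820 * q) + 308224840 := by
  rw [bb1]; push_cast; rw [hmq]; ring
lemma rb2 : ((bb m 2 : ℤ) : ℝ) = -(617795640 * q) - 409003595 := by
  rw [bb2]; push_cast; rw [hmq]; ring
lemma rb3 : ((bb m 3 : ℤ) : ℝ) = 617795640 * q - 409003595 := by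
  rw [bb3]; push_cast; rw [hmq]; ring
end

lemma rb4 (m : ℕ) : ((bb m 4 : ℤ) : ℝ) = -70467584 := by rw [bb4]; push_cast; rfl
lemma rb5 (m : ℕ) : ((bb m 5 : ℤ) : ℝ) = 144375000 := by rw [bb5]; push_cast; rfl
lemma rb6 (m : ℕ) : ((bb m 6 : ℤ) : ℝ) = -31788045 := by rw [bb6]; push_cast; rfl
lemma rb7 (m : ℕ) : ((bb m 7 : ℤ) : ℝ) = 117318768 := by rw [bb7]; push_cast; rfl

lemma log_prod_eq (m : ℕ) (hm : 1 ≤ m) :
    Real.log (∏ i, ((aa m i : ℝ) ^ (bb m i))) = Lam ((m : ℝ) + 1) := by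
  have hm' : (1 : ℝ) ≤ m := by exact_mod_cast hm
  obtain ⟨q, hq⟩ : ∃ q : ℝ, q = (m : ℝ) + 1 := ⟨_, rfl⟩
  rw [← hq]
  have hq0 : 0 < q := by linarith
  have hmq : (m : ℝ) = q - 1 := by rw [hq]; ring
  have hq2 : 2 ≤ q := by linarith
  have hu0 : 0 < 1 / q := by positivity
  have hu1 : 1 / q ≤ 1 / 2 := one_div_le_one_div_of_le (by norm_num) hq2
  have hu2 : (1 / q) ^ 2 ≤ 1 / 4 := by nlinarith
  have hne : ∀ i ∈ (Finset.univ : Finset (Fin 8)), ((aa m i : ℝ) ^ (bb m i)) ≠ 0 := by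
    intro i _
    have : (0 : ℝ) < aa m i := by exact_mod_cast aa_pos m hm i
    exact (zpow_pos this _).ne'
  rw [Real.log_prod hne]
  simp only [Real.log_zpow]
  have l1 : Real.log (60 * (q + 1)) = Real.log (60 * q) + Real.log (1 - (-(1 / q))) := by
    rw [← Real.log_mul (by positivity) (by linarith)]
    congr 1; field_simp; ring
  have l2 : Real.log (60 * (q - 1)) = Real.log (60 * q) + Real.log (1 - 1 / q) := by
    rw [← Real.log_mul (by positivity) (by linarith)]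
    congr 1; field_simp
  have l3 : Real.log (30 * (2 * q + 1)) = Real.log (60 * q) + Real.log (1 - (-(1 / q / 2))) := by
    rw [← Real.log_mul (by positivity) (by linarith)]
    congr 1; field_simp; ring
  have l4 : Real.log (30 * (2 * q - 1)) = Real.log (60 * q) + Real.log (1 - 1 / q / 2) := by
    rw [← Real.log_mul (by positivity) (by linarith)]
    congr 1; field_simp; ring
  have l0 : 2 * Real.log (60 * q) = Real.log ((60 * q) ^ 2) := by rw [Real.log_pow]; norm_num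
  have l5 : Real.log (3600 * q ^ 2 - 2250)
      = 2 * Real.log (60 * q) + Real.log (1 - 5 / 8 * (1 / q) ^ 2) := by
    rw [l0, ← Real.log_mul (by positivity) (by linarith)]
    congr 1; field_simp; ring
  have l6 : Real.log (3600 * q ^ 2 - 540)
      = 2 * Real.log (60 * q) + Real.log (1 - 3 / 20 * (1 / q) ^ 2) := by
    rw [l0, ← Real.log_mul (by positivity) (by linarith)]
    congr 1; field_simp; ring
  have l7 : Real.log (3600 * q ^ 2 - 3300)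
      = 2 * Real.log (60 * q) + Real.log (1 - 11 / 12 * (1 / q) ^ 2) := by
    rw [l0, ← Real.log_mul (by positivity) (by linarith)]
    congr 1; field_simp; ring
  rw [Fin.sum_univ_eight, ra0 m q hmq, ra1 m q hmq, ra2 m q hmq, ra3 m q hmq, ra4 m q hmq,
    ra5 m q hmq, ra6 m q hmq, ra7 m q hmq, rb0 m q hmq, rb1 m q hmq, rb2 m q hmq, rb3 m q hmq,
    rb4, rb5, rb6, rb7, l1, l2, l3, l4, l5, l6, l7, Lam]
  ring

/-- bound for the absolute value of the product of all sixteen integers -/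
lemma H_bound (m : ℕ) (hm : 1 ≤ m) :
    (((|(∏ i, bb m i) * ∏ i, (aa m i : ℤ)| : ℤ)) : ℝ) ≤ 10 ^ 96 * ((m : ℝ) + 1) ^ 15 := by
  have hm' : (1 : ℝ) ≤ m := by exact_mod_cast hm
  obtain ⟨q, hq⟩ : ∃ q : ℝ, q = (m : ℝ) + 1 := ⟨_, rfl⟩
  rw [← hq]
  have hq0 : 0 < q := by linarith
  have hmq : (m : ℝ) = q - 1 := by rw [hq]; ring
  have hq2 : 2 ≤ q := by linarith
  push_cast
  rw [abs_mul, Finset.abs_prod, Finset.abs_prod]
  have h1 : ∏ i, |((bb m i : ℤ) : ℝ)| ≤ ∏ i, vec8 (2 * 10 ^ 9 * q) (2 * 10 ^ 9 * q) (2 * 10 ^ 9 * q)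
      (2 * 10 ^ 9 * q) (2 * 10 ^ 9) (2 * 10 ^ 9) (2 * 10 ^ 9) (2 * 10 ^ 9 : ℝ) i := by
    apply Finset.prod_le_prod
    · intro i _; exact abs_nonneg _
    · suffices hs : ∀ i, |((bb m i : ℤ) : ℝ)| ≤ vec8 (2 * 10 ^ 9 * q) (2 * 10 ^ 9 * q)
          (2 * 10 ^ 9 * q) (2 * 10 ^ 9 * q) (2 * 10 ^ 9) (2 * 10 ^ 9) (2 * 10 ^ 9)
          (2 * 10 ^ 9 : ℝ) i from fun i _ => hs i
      apply forall8
      · rw [rb0 m q hmq, vec8_0, abs_le]; constructor <;> linarith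
      · rw [rb1 m q hmq, vec8_1, abs_le]; constructor <;> linarith
      · rw [rb2 m q hmq, vec8_2, abs_le]; constructor <;> linarith
      · rw [rb3 m q hmq, vec8_3, abs_le]; constructor <;> linarith
      · rw [rb4, vec8_4, abs_le]; constructor <;> norm_num
      · rw [rb5, vec8_5, abs_le]; constructor <;> norm_num
      · rw [rb6, vec8_6, abs_le]; constructor <;> norm_num
      · rw [rb7, vec8_7, abs_le]; constructor <;> norm_num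
  have h2 : ∏ i, |((aa m i : ℕ) : ℝ)| ≤ ∏ i, vec8 (120 * q) (120 * q) (120 * q) (120 * q)
      (3600 * q ^ 2) (3600 * q ^ 2) (3600 * q ^ 2) (120 * q) i := by
    apply Finset.prod_le_prod
    · intro i _; exact abs_nonneg _
    · suffices hs : ∀ i, ((aa m i : ℕ) : ℝ) ≤ vec8 (120 * q) (120 * q) (120 * q) (120 * q)
          (3600 * q ^ 2) (3600 * q ^ 2) (3600 * q ^ 2) (120 * q) i by
        intro i _
        rw [abs_of_nonneg (Nat.cast_nonneg _)]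
        exact hs i
      apply forall8
      · rw [ra0 m q hmq, vec8_0]; linarith
      · rw [ra1 m q hmq, vec8_1]; linarith
      · rw [ra2 m q hmq, vec8_2]; linarith
      · rw [ra3 m q hmq, vec8_3]; linarith
      · rw [ra4 m q hmq, vec8_4]; linarith
      · rw [ra5 m q hmq, vec8_5]; linarith
      · rw [ra6 m q hmq, vec8_6]; linarith
      · rw [ra7 m q hmq, vec8_7]; linarith
  have h3 : (∏ i, |((bb m i : ℤ) : ℝ)|) * ∏ i, |((aa m i : ℕ) : ℝ)|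
      ≤ (∏ i, vec8 (2 * 10 ^ 9 * q) (2 * 10 ^ 9 * q) (2 * 10 ^ 9 * q)
      (2 * 10 ^ 9 * q) (2 * 10 ^ 9) (2 * 10 ^ 9) (2 * 10 ^ 9) (2 * 10 ^ 9 : ℝ) i) *
      ∏ i, vec8 (120 * q) (120 * q) (120 * q) (120 * q)
      (3600 * q ^ 2) (3600 * q ^ 2) (3600 * q ^ 2) (120 * q) i := by
    apply mul_le_mul h1 h2
    · exact Finset.prod_nonneg (fun i _ => abs_nonneg _)
    · exact le_trans (Finset.prod_nonneg (fun i _ => abs_nonneg _)) h1
  refine h3.trans ?_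
  rw [Fin.prod_univ_eight, Fin.prod_univ_eight, vec8_0, vec8_1, vec8_2, vec8_3, vec8_4, vec8_5,
    vec8_6, vec8_7, vec8_0, vec8_1, vec8_2, vec8_3, vec8_4, vec8_5, vec8_6, vec8_7]
  have h15 : 0 < q ^ 15 := by positivity
  have : 2 * 10 ^ 9 * q * (2 * 10 ^ 9 * q) * (2 * 10 ^ 9 * q) * (2 * 10 ^ 9 * q) * (2 * 10 ^ 9)
      * (2 * 10 ^ 9) * (2 * 10 ^ 9) * (2 * 10 ^ 9) *
      (120 * q * (120 * q) * (120 * q) * (120 * q) * (3600 * q ^ 2) * (3600 * q ^ 2) * (3600 * q ^ 2)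
      * (120 * q)) = ((2 * 10 ^ 9) ^ 8 * 120 ^ 5 * 3600 ^ 3) * q ^ 15 := by ring
  rw [this]
  apply mul_le_mul_of_nonneg_right _ h15.le
  norm_num

end Pool.Agent.H30.LW
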